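import Pool.Agent.Helper67.FactorGenProof

set_option autoImplicit false

namespace Pool.Agent.Results.MP_51bcab_lc.FiniteCounterexample

open Pool.Agent.Helper67.FactorGen

/-- Over every alphabet with two distinct letters `a, b` (in particular over every finite
alphabet with at least two letters) there are a finite set `X` and a proper subset `Y` of `X`
such that `X` is the minimal generating set of `X*`, the submonoid `X*` is `F(X*)`-maximal, and
`F(Y*) = F(X*)`; so `X` is not a minimal factor generator.
(The proof uses `X = {b, ab, aab, ba, aba, aaba}` and `Y = {b, aab, ba, aaba}`.) -/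
theorem result (A : Type) (a b : A) (hab : a ≠ b) :
    ∃ X Y : Set (FreeMonoid A), X.Finite ∧ Y ⊂ X ∧ IsMinGenSet X ∧
      IsMaximalIn (Submonoid.closure X)
        (factors (Submonoid.closure X : Set (FreeMonoid A))) ∧
      factors (Submonoid.closure Y : Set (FreeMonoid A)) =
        factors (Submonoid.closure X : Set (FreeMonoid A)) :=
  main A a b hab

end Pool.Agent.Results.MP_51bcab_lc.FiniteCounterexample
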